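import Pool.Agent.N463.HW.Stm

/-!
# HW/HER: the first two Hermite functions (for helper463, MP_11bc5f_an; helper415)
-/

set_option autoImplicit false

open MeasureTheory

namespace Pool.Agent.N415.HW

open Pool.Agent.N463.HW

theorem raw0 (t : ℝ) : hermRaw 0 t = Real.exp (-Real.pi * t ^ 2) := by
  unfold hermRaw
  rw [iteratedDeriv_zero, ← Real.exp_add]
  congr 1
  ring

theorem raw1 (t : ℝ) : hermRaw 1 t = -(4 * Real.pi) * t * Real.exp (-Real.pi * t ^ 2) := by
  unfold hermRaw
  rw [iteratedDeriv_one]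
  have h1 : HasDerivAt (fun s : ℝ => Real.exp (-2 * Real.pi * s ^ 2))
      (Real.exp (-2 * Real.pi * t ^ 2) * (-2 * Real.pi * (2 * t))) t := by
    have h2 : HasDerivAt (fun s : ℝ => -2 * Real.pi * s ^ 2) (-2 * Real.pi * (2 * t)) t := by
      have h3 := (hasDerivAt_pow 2 t).const_mul (-2 * Real.pi)
      simpa using h3
    exact h2.exp
  rw [h1.deriv]
  have e : Real.exp (-Real.pi * t ^ 2) = Real.exp (Real.pi * t ^ 2) * Real.exp (-2 * Real.pi * t ^ 2) := by
    rw [← Real.exp_add]
    congr 1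
    ring
  rw [e]
  ring

theorem int0 : 0 < ∫ s, hermRaw 0 s ^ 2 := by
  have e : (fun s => hermRaw 0 s ^ 2) = fun s : ℝ => Real.exp (-(2 * Real.pi) * s ^ 2) := by
    funext s
    rw [raw0, ← Real.exp_nat_mul]
    congr 1
    push_cast
    ring
  rw [e, integral_gaussian]
  apply Real.sqrt_pos.2
  have := Real.pi_pos
  positivity

theorem int1 : 0 < ∫ s, hermRaw 1 s ^ 2 := by
  have hpi := Real.pi_pos
  have e : (fun s => hermRaw 1 s ^ 2) = fun s : ℝ =>
      (4 * Real.pi) ^ 2 * (s ^ (2 : ℝ) * Real.exp (-(2 * Real.pi) * s ^ 2)) := by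
    funext s
    rw [raw1, Real.rpow_two]
    have e2 : Real.exp (-(2 * Real.pi) * s ^ 2) =
        Real.exp (-Real.pi * s ^ 2) * Real.exp (-Real.pi * s ^ 2) := by
      rw [← Real.exp_add]
      congr 1
      ring
    rw [e2]
    ring
  have hint : Integrable (fun s : ℝ =>
      (4 * Real.pi) ^ 2 * (s ^ (2 : ℝ) * Real.exp (-(2 * Real.pi) * s ^ 2))) :=
    (integrable_rpow_mul_exp_neg_mul_sq (by positivity) (by norm_num)).const_mul _
  rw [e]
  rw [integral_pos_iff_support_of_nonneg _ hint]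
  · refine lt_of_lt_of_le ?_ (measure_mono (s := Set.Ioo (1 : ℝ) 2) ?_)
    · rw [Real.volume_Ioo]
      norm_num
    · intro s hs
      rw [Function.mem_support]
      have h1 : 0 < s := by linarith [hs.1]
      positivity
  · intro s
    change 0 ≤ (4 * Real.pi) ^ 2 * (s ^ (2 : ℝ) * Real.exp (-(2 * Real.pi) * s ^ 2))
    rw [Real.rpow_two]
    positivity

theorem t_HER : S_HER := by
  have hpi := Real.pi_pos
  have h0 := Real.sqrt_pos.2 int0
  have h1 := Real.sqrt_pos.2 int1
  refine ⟨1 / Real.sqrt (∫ s, hermRaw 0 s ^ 2), 4 * Real.pi / Real.sqrt (∫ s, hermRaw 1 s ^ 2),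
    by positivity, by positivity, ?_, ?_⟩
  · intro t
    unfold herm
    rw [raw0]
    push_cast
    ring
  · intro t
    unfold herm
    rw [raw1]
    push_cast
    ring

end Pool.Agent.N415.HW
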